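import Pool.Agent.H13.SB.Piece

/-!
# Second fiberings of a boundary connected sum

Paper proof of `alt_add`. Let `τ, τ'` be the automorphisms for `P, Q`, let
`eL : F_g ⋊ Γ →* F_{g+k} ⋊ Γ` be `inl w ↦ inl (inL w)`, `inr γ ↦ inr γ` and `eR` similarly.
`T0 := sumHom (w ↦ eL (τ (inl w))) (w ↦ eR (τ' (inl w)))` and `T := SemidirectProduct.lift T0 inr`
(compatibility: check on `inL w` and on `inR w` with `sum_ext`, using
`inl (P.ρ γ w) = inr γ * inl w * inr γ⁻¹` and `τ (inr γ) = inr γ`).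
Then `T (eL x) = eL (τ x)`, `T (eR x) = eR (τ' x)` for all `x` (`SemidirectProduct.hom_ext`), so
the endomorphism `T'` obtained in the same way from `τ⁻¹, τ'⁻¹` is the inverse of `T`.
`T (inl (surfRel (g+k))) = T (inl (inL (surfRel g))) * T (inl (inR (surfRel k)))`.
Right component: `(T (inl (inL w))).right = (eL (τ (inl w))).right = (τ (inl w)).right = h w`;
`x ↦ (T (inl x)).right` and `sumHom h h'` are homomorphisms (`SemidirectProduct.rightHom`)
which agree on `inL w`, `inR w`.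
-/

namespace H13SB

variable {Γ : Type} [Group Γ] {g k : ℕ}

namespace AltAdd

open SemidirectProduct

/-- The left embedding. -/
def eL (P : Piece Γ g) (Q : Piece Γ k) :
    FreeGroup (Gen g) ⋊[P.ρ] Γ →* FreeGroup (Gen (g + k)) ⋊[(P.add Q).ρ] Γ :=
  SemidirectProduct.lift (inl.comp inL) inr (fun γ => by
    ext1 w
    simp only [MonoidHom.comp_apply, MulEquiv.toMonoidHom_eq_coe, MonoidHom.coe_coe,
      MulAut.conj_apply]
    rw [← Piece.add_inL P Q γ, inl_aut, map_inv])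

/-- The right embedding. -/
def eR (P : Piece Γ g) (Q : Piece Γ k) :
    FreeGroup (Gen k) ⋊[Q.ρ] Γ →* FreeGroup (Gen (g + k)) ⋊[(P.add Q).ρ] Γ :=
  SemidirectProduct.lift (inl.comp inR) inr (fun γ => by
    ext1 w
    simp only [MonoidHom.comp_apply, MulEquiv.toMonoidHom_eq_coe, MonoidHom.coe_coe,
      MulAut.conj_apply]
    rw [← Piece.add_inR P Q γ, inl_aut, map_inv])

@[simp] theorem eL_inl (P : Piece Γ g) (Q : Piece Γ k) (w : FreeGroup (Gen g)) :
    eL P Q (inl w) = inl (inL w) := by simp [eL]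

@[simp] theorem eL_inr (P : Piece Γ g) (Q : Piece Γ k) (γ : Γ) :
    eL P Q (inr γ) = inr γ := by simp [eL]

@[simp] theorem eR_inl (P : Piece Γ g) (Q : Piece Γ k) (w : FreeGroup (Gen k)) :
    eR P Q (inl w) = inl (inR w) := by simp [eR]

@[simp] theorem eR_inr (P : Piece Γ g) (Q : Piece Γ k) (γ : Γ) :
    eR P Q (inr γ) = inr γ := by simp [eR]

theorem eL_right (P : Piece Γ g) (Q : Piece Γ k) (x : FreeGroup (Gen g) ⋊[P.ρ] Γ) :
    (eL P Q x).right = x.right := by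
  have h : (rightHom (φ := (P.add Q).ρ)).comp (eL P Q) = rightHom := by
    apply SemidirectProduct.hom_ext
    · ext1 w; simp
    · ext1 w; simp
  exact DFunLike.congr_fun h x

theorem eR_right (P : Piece Γ g) (Q : Piece Γ k) (x : FreeGroup (Gen k) ⋊[Q.ρ] Γ) :
    (eR P Q x).right = x.right := by
  have h : (rightHom (φ := (P.add Q).ρ)).comp (eR P Q) = rightHom := by
    apply SemidirectProduct.hom_ext
    · ext1 w; simp
    · ext1 w; simp
  exact DFunLike.congr_fun h x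

/-- The endomorphism of the sum on the kernel. -/
def T0 (P : Piece Γ g) (Q : Piece Γ k)
    (τ : FreeGroup (Gen g) ⋊[P.ρ] Γ →* FreeGroup (Gen g) ⋊[P.ρ] Γ)
    (τ' : FreeGroup (Gen k) ⋊[Q.ρ] Γ →* FreeGroup (Gen k) ⋊[Q.ρ] Γ) :
    FreeGroup (Gen (g + k)) →* FreeGroup (Gen (g + k)) ⋊[(P.add Q).ρ] Γ :=
  sumHom ((eL P Q).comp (τ.comp inl)) ((eR P Q).comp (τ'.comp inl))

/-- The endomorphism of the sum. -/
def T (P : Piece Γ g) (Q : Piece Γ k)
    (τ : FreeGroup (Gen g) ⋊[P.ρ] Γ →* FreeGroup (Gen g) ⋊[P.ρ] Γ)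
    (τ' : FreeGroup (Gen k) ⋊[Q.ρ] Γ →* FreeGroup (Gen k) ⋊[Q.ρ] Γ)
    (hτ : ∀ γ, τ (inr γ) = inr γ) (hτ' : ∀ γ, τ' (inr γ) = inr γ) :
    FreeGroup (Gen (g + k)) ⋊[(P.add Q).ρ] Γ →* FreeGroup (Gen (g + k)) ⋊[(P.add Q).ρ] Γ :=
  SemidirectProduct.lift (T0 P Q τ τ') inr (fun γ => by
    apply sum_ext
    · intro w
      simp only [MonoidHom.comp_apply, MulEquiv.toMonoidHom_eq_coe, MonoidHom.coe_coe,
        MulAut.conj_apply, Piece.add_inL, T0, sumHom_inL]
      rw [inl_aut, map_mul, map_mul, map_mul, map_mul, hτ, hτ, eL_inr, eL_inr, map_inv]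
    · intro w
      simp only [MonoidHom.comp_apply, MulEquiv.toMonoidHom_eq_coe, MonoidHom.coe_coe,
        MulAut.conj_apply, Piece.add_inR, T0, sumHom_inR]
      rw [inl_aut, map_mul, map_mul, map_mul, map_mul, hτ', hτ', eR_inr, eR_inr, map_inv])

section

variable (P : Piece Γ g) (Q : Piece Γ k)
    (τ : FreeGroup (Gen g) ⋊[P.ρ] Γ →* FreeGroup (Gen g) ⋊[P.ρ] Γ)
    (τ' : FreeGroup (Gen k) ⋊[Q.ρ] Γ →* FreeGroup (Gen k) ⋊[Q.ρ] Γ)
    (hτ : ∀ γ, τ (inr γ) = inr γ) (hτ' : ∀ γ, τ' (inr γ) = inr γ)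

theorem T_inr (γ : Γ) : T P Q τ τ' hτ hτ' (inr γ) = inr γ := by simp [T]

theorem T_inl_inL (w : FreeGroup (Gen g)) :
    T P Q τ τ' hτ hτ' (inl (inL w)) = eL P Q (τ (inl w)) := by
  simp [T, T0]

theorem T_inl_inR (w : FreeGroup (Gen k)) :
    T P Q τ τ' hτ hτ' (inl (inR w)) = eR P Q (τ' (inl w)) := by
  simp [T, T0]

theorem T_eL (x : FreeGroup (Gen g) ⋊[P.ρ] Γ) :
    T P Q τ τ' hτ hτ' (eL P Q x) = eL P Q (τ x) := by
  have h : (T P Q τ τ' hτ hτ').comp (eL P Q) = (eL P Q).comp τ := by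
    apply SemidirectProduct.hom_ext
    · ext1 w
      simp only [MonoidHom.comp_apply, eL_inl, T_inl_inL]
    · ext1 w
      simp only [MonoidHom.comp_apply, eL_inr, T_inr, hτ]
  exact DFunLike.congr_fun h x

theorem T_eR (x : FreeGroup (Gen k) ⋊[Q.ρ] Γ) :
    T P Q τ τ' hτ hτ' (eR P Q x) = eR P Q (τ' x) := by
  have h : (T P Q τ τ' hτ hτ').comp (eR P Q) = (eR P Q).comp τ' := by
    apply SemidirectProduct.hom_ext
    · ext1 w
      simp only [MonoidHom.comp_apply, eR_inl, T_inl_inR]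
    · ext1 w
      simp only [MonoidHom.comp_apply, eR_inr, T_inr, hτ']
  exact DFunLike.congr_fun h x

theorem T_comp
    (σ : FreeGroup (Gen g) ⋊[P.ρ] Γ →* FreeGroup (Gen g) ⋊[P.ρ] Γ)
    (σ' : FreeGroup (Gen k) ⋊[Q.ρ] Γ →* FreeGroup (Gen k) ⋊[Q.ρ] Γ)
    (hσ : ∀ γ, σ (inr γ) = inr γ) (hσ' : ∀ γ, σ' (inr γ) = inr γ)
    (h : ∀ x, τ (σ x) = x) (h' : ∀ x, τ' (σ' x) = x) :
    (T P Q τ τ' hτ hτ').comp (T P Q σ σ' hσ hσ') = MonoidHom.id _ := by
  apply SemidirectProduct.hom_ext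
  · apply sum_ext
    · intro w
      simp only [MonoidHom.comp_apply, T_inl_inL, T_eL, h, eL_inl, MonoidHom.id_apply]
    · intro w
      simp only [MonoidHom.comp_apply, T_inl_inR, T_eR, h', eR_inl, MonoidHom.id_apply]
  · ext1 γ
    simp only [MonoidHom.comp_apply, T_inr, MonoidHom.id_apply]

end

end AltAdd

open AltAdd SemidirectProduct in
theorem alt_add (P : Piece Γ g) (Q : Piece Γ k) {h : FreeGroup (Gen g) →* Γ}
    {h' : FreeGroup (Gen k) →* Γ} (hP : Alt P h) (hQ : Alt Q h') :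
    Alt (P.add Q) (sumHom h h') := by
  obtain ⟨τ, hτ, hb, hr⟩ := hP
  obtain ⟨τ', hτ', hb', hr'⟩ := hQ
  have hi : ∀ γ, τ.symm (inr γ) = inr γ := fun γ => by
    rw [MulEquiv.symm_apply_eq, hτ]
  have hi' : ∀ γ, τ'.symm (inr γ) = inr γ := fun γ => by
    rw [MulEquiv.symm_apply_eq, hτ']
  refine ⟨MonoidHom.toMulEquiv
    (T P Q τ.toMonoidHom τ'.toMonoidHom hτ hτ')
    (T P Q τ.symm.toMonoidHom τ'.symm.toMonoidHom hi hi')
    (T_comp P Q _ _ _ _ _ _ _ _ (fun x => τ.symm_apply_apply x)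
      (fun x => τ'.symm_apply_apply x))
    (T_comp P Q _ _ _ _ _ _ _ _ (fun x => τ.apply_symm_apply x)
      (fun x => τ'.apply_symm_apply x)), ?_, ?_, ?_⟩
  · intro γ
    exact T_inr P Q τ.toMonoidHom τ'.toMonoidHom hτ hτ' γ
  · change T P Q τ.toMonoidHom τ'.toMonoidHom hτ hτ' (inl (surfRel (g + k))) = _
    rw [surfRel_add, map_mul, map_mul, T_inl_inL, T_inl_inR]
    change eL P Q (τ (inl (surfRel g))) * eR P Q (τ' (inl (surfRel k))) = _
    rw [hb, hb', eL_inl, eR_inl]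
  · intro w
    change (T P Q τ.toMonoidHom τ'.toMonoidHom hτ hτ' (inl w)).right = _
    have key : (rightHom (φ := (P.add Q).ρ)).comp
        ((T P Q τ.toMonoidHom τ'.toMonoidHom hτ hτ').comp inl) = sumHom h h' := by
      apply sum_ext
      · intro w
        simp only [MonoidHom.comp_apply, T_inl_inL, sumHom_inL, rightHom_eq_right]
        rw [eL_right]
        exact hr w
      · intro w
        simp only [MonoidHom.comp_apply, T_inl_inR, sumHom_inR, rightHom_eq_right]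
        rw [eR_right]
        exact hr' w
    exact DFunLike.congr_fun key w

end H13SB
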