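import Pool.Agent.H13.SB.Close

/-!
# Exponent sums on the free group
-/

namespace H13SB

variable {g k : ℕ}

/-- Exponent sums of an element of the free group. -/
def fexp (x : Gen g) : FreeGroup (Gen g) →* Multiplicative ℤ :=
  FreeGroup.lift fun y => Multiplicative.ofAdd (if y = x then (1 : ℤ) else 0)

/-- The class in `ℤ^{2g}`. -/
def fclass (w : FreeGroup (Gen g)) : Gen g → ℤ := fun x => (fexp x w).toAdd

theorem fclass_one : fclass (1 : FreeGroup (Gen g)) = 0 := by
  funext x; simp [fclass]

theorem fclass_mul (v w : FreeGroup (Gen g)) : fclass (v * w) = fclass v + fclass w := by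
  funext x; simp [fclass]

theorem fclass_inv (w : FreeGroup (Gen g)) : fclass w⁻¹ = -fclass w := by
  funext x; simp [fclass]

theorem fclass_of (y : Gen g) : fclass (FreeGroup.of y) = fun x => if y = x then 1 else 0 := by
  funext x; simp [fclass, fexp]

theorem expSum_mkS (x : Gen g) (w : FreeGroup (Gen g)) : expSum x (mkS g w) = fexp x w := by
  have h : (expSum x).comp (mkS g) = fexp x := by
    apply FreeGroup.ext_hom
    intro y
    rw [MonoidHom.comp_apply]
    change PresentedGroup.toGroup (expSum_aux g x) (PresentedGroup.of y) = _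
    rw [PresentedGroup.toGroup.of]
    simp [fexp]
  exact DFunLike.congr_fun h w

theorem hclass_mkS (w : FreeGroup (Gen g)) : hclass (mkS g w) = fclass w := by
  funext x
  simp only [hclass, fclass, expSum_mkS]

/-- The linear action of the closed piece. -/
theorem act_close {Γ : Type} [Group Γ] (P : Piece Γ g) (γ : Γ) (v : Gen g → ℝ) (x : Gen g) :
    act (P.close γ) v x = ∑ y, (fclass (P.ρ γ (FreeGroup.of y)) x : ℝ) * v y := by
  simp only [act]
  congr 1
  funext y
  change (hclass (P.close γ (mkS g (FreeGroup.of y))) x : ℝ) * v y = _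
  rw [P.close_mk, hclass_mkS]

end H13SB
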