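import Pool.Agent.H13.SB.Piece

/-!
# Closing up a piece: the closed surface bundle and its fiberings

`Piece.close P` is the induced action of `Γ` on the closed surface group. Each second fibering
of the piece gives a fiber subgroup.

Paper proof of `fiber_of_alt`. Let `N = SurfaceGroup g ⋊[P.close] Γ` and let `τ` be the
automorphism of `F ⋊ Γ`. Let `q : F ⋊ Γ →* N` be `inl w ↦ inl (mk w)`, `inr γ ↦ inr γ`.
`T0 : SurfaceGroup g →* N` is `PresentedGroup.toGroup` applied to `x ↦ q (τ (inl (of x)))`; it is
well defined because `q (τ (inl (surfRel g))) = q (inl (surfRel g)) = 1`. Then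
`T := SemidirectProduct.lift T0 inr` satisfies `T (q x) = q (τ x)` for all `x`; the endomorphism
built from `τ⁻¹` is its inverse, so `T : MulAut N`.
`f := rightHom ∘ T : N →* Γ`; `f (inr γ) = γ`, `f (inl (mk w)) = (τ (inl w)).right = h w`.
`K := f.ker`. `f` is onto, so `N ⧸ K ≃* Γ` (`QuotientGroup.quotientKerEquivOfSurjective`).
`K = (range inl).comap T` so `T` maps `K` isomorphically onto `range inl ≃* SurfaceGroup g`.
-/

namespace H13SB

variable {Γ : Type} [Group Γ] {g b : ℕ}

open SemidirectProduct

/-- The class in the closed surface group. -/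
def mkS (g : ℕ) : FreeGroup (Gen g) →* SurfaceGroup g := PresentedGroup.mk _

theorem mkS_surjective : Function.Surjective (mkS g) := PresentedGroup.mk_surjective _

theorem mkS_rel : mkS g (surfRel g) = 1 :=
  PresentedGroup.one_of_mem (rels := {surfRel g}) rfl

theorem closeHom_aux (P : Piece Γ g) (γ : Γ) :
    ∀ r ∈ ({surfRel g} : Set (FreeGroup (Gen g))),
      FreeGroup.lift (fun x => mkS g (P.ρ γ (FreeGroup.of x))) r = 1 := by
  intro r hr
  rw [Set.mem_singleton_iff] at hr
  subst hr
  have h : FreeGroup.lift (fun x => mkS g (P.ρ γ (FreeGroup.of x))) =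
      (mkS g).comp (P.ρ γ).toMonoidHom := FreeGroup.ext_hom _ _ (by simp)
  rw [h, MonoidHom.comp_apply]
  change mkS g (P.ρ γ (surfRel g)) = 1
  rw [P.bdry, mkS_rel]

/-- The endomorphism of the closed surface group induced by `P.ρ γ`. -/
def closeHom (P : Piece Γ g) (γ : Γ) : SurfaceGroup g →* SurfaceGroup g :=
  PresentedGroup.toGroup (closeHom_aux P γ)

theorem closeHom_mk (P : Piece Γ g) (γ : Γ) (w : FreeGroup (Gen g)) :
    closeHom P γ (mkS g w) = mkS g (P.ρ γ w) := by
  have h : (closeHom P γ).comp (mkS g) = (mkS g).comp (P.ρ γ).toMonoidHom := by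
    apply FreeGroup.ext_hom
    intro x
    exact PresentedGroup.toGroup.of (closeHom_aux P γ)
  exact DFunLike.congr_fun h w

/-- The monodromy of the closed surface bundle. -/
def Piece.close (P : Piece Γ g) : Γ →* MulAut (SurfaceGroup g) where
  toFun γ := MonoidHom.toMulEquiv (closeHom P γ) (closeHom P γ⁻¹)
    (by
      apply MonoidHom.ext; intro x
      obtain ⟨w, rfl⟩ := mkS_surjective x
      simp [closeHom_mk])
    (by
      apply MonoidHom.ext; intro x
      obtain ⟨w, rfl⟩ := mkS_surjective x
      simp [closeHom_mk])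
  map_one' := by
    apply MulEquiv.ext; intro x
    obtain ⟨w, rfl⟩ := mkS_surjective x
    simp [closeHom_mk]
  map_mul' γ γ' := by
    apply MulEquiv.ext; intro x
    obtain ⟨w, rfl⟩ := mkS_surjective x
    simp [closeHom_mk]

theorem Piece.close_mk (P : Piece Γ g) (γ : Γ) (w : FreeGroup (Gen g)) :
    P.close γ (mkS g w) = mkS g (P.ρ γ w) :=
  closeHom_mk P γ w

/-- The projection from the free piece to the closed surface bundle. -/
def closeProj (P : Piece Γ g) : FreeGroup (Gen g) ⋊[P.ρ] Γ →* SurfaceGroup g ⋊[P.close] Γ :=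
  SemidirectProduct.map (mkS g) (MonoidHom.id Γ) (by
    intro γ
    apply MonoidHom.ext
    intro w
    exact (P.close_mk γ w).symm)

theorem closeProj_inl (P : Piece Γ g) (w : FreeGroup (Gen g)) :
    closeProj P (inl w) = inl (mkS g w) := by
  simp [closeProj]

theorem closeProj_inr (P : Piece Γ g) (γ : Γ) : closeProj P (inr γ) = inr γ := by
  simp [closeProj]

theorem closeProj_right (P : Piece Γ g) (x : FreeGroup (Gen g) ⋊[P.ρ] Γ) :
    rightHom (closeProj P x) = x.right := by
  simp [closeProj]

theorem closeProj_surjective (P : Piece Γ g) : Function.Surjective (closeProj P) := by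
  intro x
  obtain ⟨w, hw⟩ := mkS_surjective x.left
  refine ⟨inl w * inr x.right, ?_⟩
  rw [map_mul, closeProj_inl, closeProj_inr, hw, inl_left_mul_inr_right]

/-- An automorphism of the free piece which is the identity on `Γ` and on the boundary descends
to the closed surface bundle. -/
theorem closeDescend (P : Piece Γ g) (τ : MulAut (FreeGroup (Gen g) ⋊[P.ρ] Γ))
    (h1 : ∀ γ, τ (inr γ) = inr γ) (h2 : τ (inl (surfRel g)) = inl (surfRel g)) :
    ∃ T : SurfaceGroup g ⋊[P.close] Γ →* SurfaceGroup g ⋊[P.close] Γ,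
      ∀ x, T (closeProj P x) = closeProj P (τ x) := by
  have hrel : ∀ r ∈ ({surfRel g} : Set (FreeGroup (Gen g))),
      FreeGroup.lift (fun x => closeProj P (τ (inl (FreeGroup.of x)))) r = 1 := by
    intro r hr
    rw [Set.mem_singleton_iff] at hr
    subst hr
    have h : FreeGroup.lift (fun x => closeProj P (τ (inl (FreeGroup.of x)))) =
        ((closeProj P).comp τ.toMonoidHom).comp inl := FreeGroup.ext_hom _ _ (by simp)
    rw [h, MonoidHom.comp_apply, MonoidHom.comp_apply]
    change closeProj P (τ (inl (surfRel g))) = 1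
    rw [h2, closeProj_inl, mkS_rel, map_one]
  have hT0 : ∀ w, PresentedGroup.toGroup hrel (mkS g w) = closeProj P (τ (inl w)) := by
    intro w
    have h : (PresentedGroup.toGroup hrel).comp (mkS g) =
        ((closeProj P).comp τ.toMonoidHom).comp inl := by
      apply FreeGroup.ext_hom
      intro x
      exact PresentedGroup.toGroup.of hrel
    exact DFunLike.congr_fun h w
  have hcomp : ∀ γ, (PresentedGroup.toGroup hrel).comp (P.close γ).toMonoidHom =
      (MulAut.conj (inr γ)).toMonoidHom.comp (PresentedGroup.toGroup hrel) := by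
    intro γ
    apply MonoidHom.ext
    intro x
    obtain ⟨w, rfl⟩ := mkS_surjective x
    change PresentedGroup.toGroup hrel (P.close γ (mkS g w)) =
      inr γ * PresentedGroup.toGroup hrel (mkS g w) * (inr γ)⁻¹
    rw [P.close_mk, hT0, hT0, inl_aut, map_mul τ, map_mul τ, h1, h1, map_mul (closeProj P),
      map_mul (closeProj P), closeProj_inr, closeProj_inr, map_inv]
  refine ⟨SemidirectProduct.lift (PresentedGroup.toGroup hrel) inr hcomp, ?_⟩
  intro x
  have h : ∀ w γ, SemidirectProduct.lift (PresentedGroup.toGroup hrel) inr hcomp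
      (closeProj P (inl w * inr γ)) = closeProj P (τ (inl w * inr γ)) := by
    intro w γ
    rw [map_mul, map_mul, map_mul, map_mul, closeProj_inl, closeProj_inr, lift_inl, lift_inr,
      hT0, h1, closeProj_inr]
  have h' := h x.left x.right
  rwa [inl_left_mul_inr_right] at h'

theorem fiber_of_alt (P : Piece (SurfaceGroup b) g) (hg : 2 ≤ g) (hb : 2 ≤ b)
    (h : FreeGroup (Gen g) →* SurfaceGroup b) (hA : Alt P h) :
    ∃ K : Subgroup (SurfaceGroup g ⋊[P.close] SurfaceGroup b), IsFiberSubgroup K ∧
      ∀ w γ, (inl (mkS g w) * inr γ ∈ K ↔ h w * γ = 1) := by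
  obtain ⟨τ, h1, h2, h3⟩ := hA
  obtain ⟨T, hT⟩ := closeDescend P τ h1 h2
  obtain ⟨T', hT'⟩ := closeDescend P τ⁻¹
    (fun γ => by
      rw [MulAut.inv_apply, MulEquiv.symm_apply_eq]
      exact (h1 γ).symm)
    (by
      rw [MulAut.inv_apply, MulEquiv.symm_apply_eq]
      exact h2.symm)
  have hTT' : ∀ y, T (T' y) = y := by
    intro y
    obtain ⟨x, rfl⟩ := closeProj_surjective P y
    rw [hT', hT, MulAut.apply_inv_self]
  have hT'T : ∀ y, T' (T y) = y := by
    intro y
    obtain ⟨x, rfl⟩ := closeProj_surjective P y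
    rw [hT, hT', MulAut.inv_apply_self]
  let f : SurfaceGroup g ⋊[P.close] SurfaceGroup b →* SurfaceGroup b := rightHom.comp T
  have hf : ∀ x, f (closeProj P x) = (τ x).right := by
    intro x
    change rightHom (T (closeProj P x)) = _
    rw [hT, closeProj_right]
  have hfr : ∀ γ, f (inr γ) = γ := by
    intro γ
    rw [← closeProj_inr P γ, hf, h1, right_inr]
  have hsurj : Function.Surjective f := fun γ => ⟨inr γ, hfr γ⟩
  refine ⟨f.ker, ⟨g, b, hg, hb, ?_, inferInstance, ⟨QuotientGroup.quotientKerEquivOfSurjective f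
    hsurj⟩⟩, ?_⟩
  · let j : SurfaceGroup g →* SurfaceGroup g ⋊[P.close] SurfaceGroup b := T'.comp inl
    have hj : Function.Injective j := by
      intro x y hxy
      have h4 : T (T' (inl x)) = T (T' (inl y)) := congrArg T hxy
      rw [hTT', hTT'] at h4
      exact inl_injective h4
    have hr : j.range = f.ker := by
      ext y
      rw [MonoidHom.mem_range, MonoidHom.mem_ker]
      constructor
      · rintro ⟨x, rfl⟩
        change rightHom (T (T' (inl x))) = 1
        rw [hTT', rightHom_inl]
      · intro hy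
        have h5 : T y ∈ (rightHom : SurfaceGroup g ⋊[P.close] SurfaceGroup b →* _).ker := hy
        rw [← range_inl_eq_ker_rightHom] at h5
        obtain ⟨x, hx⟩ := h5
        refine ⟨x, ?_⟩
        change T' (inl x) = y
        rw [hx, hT'T]
    exact ⟨((MonoidHom.ofInjective hj).trans (MulEquiv.subgroupCongr hr)).symm⟩
  · intro w γ
    rw [MonoidHom.mem_ker, map_mul, hfr, ← closeProj_inl, hf, h3]

end H13SB
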