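import Mathlib

/-!
# Surface bundles over surfaces: group theoretic definitions

`SurfaceGroup g` is the fundamental group of the closed orientable surface of genus `g`.
For `φ : SurfaceGroup h →* MulAut (SurfaceGroup g)` the group
`SurfaceGroup g ⋊[φ] SurfaceGroup h` is the fundamental group of the surface bundle over
`Σ_h` with fibre `Σ_g`, with a section, and with monodromy `φ`.
-/

namespace H13SB

/-- The commutator `x y x⁻¹ y⁻¹`. -/
def cm {G : Type*} [Group G] (x y : G) : G := x * y * x⁻¹ * y⁻¹

theorem map_cm {G H : Type*} [Group G] [Group H] (f : G →* H) (x y : G) :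
    f (cm x y) = cm (f x) (f y) := by
  simp [cm]

/-- Generators of the surface group of genus `g`: `(i, false)` is `a_i` and `(i, true)` is
`b_i`. -/
abbrev Gen (g : ℕ) : Type := Fin g × Bool

/-- The relator `[a_0, b_0] ⋯ [a_{g-1}, b_{g-1}]`. -/
def surfRel (g : ℕ) : FreeGroup (Gen g) :=
  (List.ofFn fun i : Fin g => cm (FreeGroup.of (i, false)) (FreeGroup.of (i, true))).prod

/-- The fundamental group of the closed orientable surface of genus `g`. -/
abbrev SurfaceGroup (g : ℕ) : Type := PresentedGroup ({surfRel g} : Set (FreeGroup (Gen g)))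

/-- The generator of the surface group. -/
def sgen {g : ℕ} (x : Gen g) : SurfaceGroup g := PresentedGroup.of x

theorem expSum_aux (g : ℕ) (x : Gen g) :
    ∀ r ∈ ({surfRel g} : Set (FreeGroup (Gen g))),
      FreeGroup.lift (fun y : Gen g => Multiplicative.ofAdd (if y = x then (1 : ℤ) else 0)) r
        = 1 := by
  intro r hr
  rw [Set.mem_singleton_iff] at hr
  subst hr
  rw [surfRel, map_list_prod]
  apply List.prod_eq_one
  intro y hy
  rw [List.mem_map] at hy
  obtain ⟨w, hw, rfl⟩ := hy
  rw [List.mem_ofFn] at hw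
  obtain ⟨i, rfl⟩ := hw
  rw [map_cm, cm, mul_comm (FreeGroup.lift _ (FreeGroup.of (i, false)))]
  group

/-- The exponent sum of the generator `x` in an element of the surface group. -/
def expSum {g : ℕ} (x : Gen g) : SurfaceGroup g →* Multiplicative ℤ :=
  PresentedGroup.toGroup (expSum_aux g x)

/-- The class in `H_1(Σ_g; ℤ) = ℤ^{2g}` of an element of the surface group. -/
def hclass {g : ℕ} (k : SurfaceGroup g) : Gen g → ℤ := fun x => (expSum x k).toAdd

/-- The linear action of an automorphism of the surface group on `H_1(Σ_g; ℝ) = ℝ^{2g}`. -/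
def act {g : ℕ} (f : MulAut (SurfaceGroup g)) (v : Gen g → ℝ) : Gen g → ℝ :=
  fun x => ∑ y, (hclass (f (sgen y)) x : ℝ) * v y

/-- The intersection form on `H_1(Σ_g; ℝ)`. -/
def omega {g : ℕ} (v w : Gen g → ℝ) : ℝ :=
  ∑ i : Fin g, (v (i, false) * w (i, true) - v (i, true) * w (i, false))

/-- The monodromy preserves the orientation of the fibre. -/
def OrientationPreserving {g h : ℕ} (φ : SurfaceGroup h →* MulAut (SurfaceGroup g)) : Prop :=
  ∀ x v w, omega (act (φ x) v) (act (φ x) w) = omega v w

/-- `1`-cocycles of the group `π_1(Σ_h)` with coefficients in `H_1(Σ_g; ℝ)`. -/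
def IsCocycle {g h : ℕ} (φ : SurfaceGroup h →* MulAut (SurfaceGroup g))
    (u : SurfaceGroup h → Gen g → ℝ) : Prop :=
  ∀ x y, u (x * y) = u x + act (φ x) (u y)

/-- The letters of the relator, as elements of the surface group. -/
def letters (h : ℕ) : List (SurfaceGroup h) :=
  (List.ofFn fun i : Fin h =>
    [sgen (i, false), sgen (i, true), (sgen (i, false))⁻¹, (sgen (i, true))⁻¹]).flatten

/-- `∑_j c(x s_1 ⋯ s_{j-1}, s_j)` for a list `s_1, s_2, …`. -/
def chainEval {G : Type} [Group G] (c : G → G → ℝ) : G → List G → ℝ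
  | _, [] => 0
  | x, s :: l => c x s + chainEval c (x * s) l

/-- Evaluation of a (normalised) group `2`-cochain of `π_1(Σ_h)` on the fundamental class
`∑_j [s_1 ⋯ s_{j-1} | s_j] - ∑_x [x⁻¹ | x]`, where `s_1 s_2 ⋯` is the relator and `x` runs
through the generators. -/
def fundEval {h : ℕ} (c : SurfaceGroup h → SurfaceGroup h → ℝ) : ℝ :=
  chainEval c 1 (letters h) - ∑ x : Gen h, c (sgen x)⁻¹ (sgen x)

/-- The cup product form on `1`-cocycles: the value of
`(x, y) ↦ ω(u(x), x · v(y))` on the fundamental class. -/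
def form {g h : ℕ} (φ : SurfaceGroup h →* MulAut (SurfaceGroup g))
    (u v : SurfaceGroup h → Gen g → ℝ) : ℝ :=
  fundEval fun x y => omega (u x) (act (φ x) (v y))

/-- The largest dimension of a space of cocycles on which the form is positive definite. -/
noncomputable def posIndex {g h : ℕ} (φ : SurfaceGroup h →* MulAut (SurfaceGroup g)) : ℕ :=
  sSup {n | ∃ W : Submodule ℝ (SurfaceGroup h → Gen g → ℝ),
    (∀ u ∈ W, IsCocycle φ u) ∧ (∀ u ∈ W, u ≠ 0 → 0 < form φ u u) ∧ Module.finrank ℝ W = n}

/-- The largest dimension of a space of cocycles on which the form is negative definite. -/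
noncomputable def negIndex {g h : ℕ} (φ : SurfaceGroup h →* MulAut (SurfaceGroup g)) : ℕ :=
  sSup {n | ∃ W : Submodule ℝ (SurfaceGroup h → Gen g → ℝ),
    (∀ u ∈ W, IsCocycle φ u) ∧ (∀ u ∈ W, u ≠ 0 → form φ u u < 0) ∧ Module.finrank ℝ W = n}

/-- The signature of the cup product form on `H^1(Σ_h; H_1(Σ_g; ℝ))`. -/
noncomputable def signature {g h : ℕ} (φ : SurfaceGroup h →* MulAut (SurfaceGroup g)) : ℤ :=
  (posIndex φ : ℤ) - (negIndex φ : ℤ)

/-- `K` is the fibre subgroup of a fibering: it is normal, it is the fundamental group of a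
closed orientable surface of genus at least two, and so is the quotient. -/
def IsFiberSubgroup {G : Type} [Group G] (K : Subgroup G) : Prop :=
  ∃ g h : ℕ, 2 ≤ g ∧ 2 ≤ h ∧ Nonempty (K ≃* SurfaceGroup g) ∧
    ∃ _ : K.Normal, Nonempty (G ⧸ K ≃* SurfaceGroup h)

end H13SB
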