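import Pool.Agent.H13.SB.W.Std
import Pool.Agent.H13.SB.W.Triv
import Pool.Agent.H13.SB.AltAdd

/-!
# The sum of `n` copies of `W`
-/

namespace H13SB

/-- The piece of genus zero. -/
def one0 (Γ : Type) [Group Γ] : Piece Γ 0 where
  ρ := 1
  bdry _ := rfl

/-- The genus of the sum of `n` copies. -/
def gq : ℕ → ℕ
  | 0 => 0
  | n + 1 => gq n + (9 + 9)

/-- The sum of `n` copies of `W`. -/
noncomputable def Qn : (n : ℕ) → Piece (SurfaceGroup 9) (gq n)
  | 0 => one0 _
  | n + 1 => (Qn n).add (W.piece 9)

/-- The second fiberings. -/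
noncomputable def hq : (n : ℕ) → (Fin n → Bool) → (FreeGroup (Gen (gq n)) →* SurfaceGroup 9)
  | 0, _ => 1
  | n + 1, s => sumHom (hq n (fun i => s i.castSucc)) (if s (Fin.last n) then W.hP 9 else 1)

theorem alt_hq (n : ℕ) (s : Fin n → Bool) : Alt (Qn n) (hq n s) := by
  induction n with
  | zero => exact alt_one _
  | succ n ih =>
    have h2 : Alt (W.piece 9) (if s (Fin.last n) then W.hP 9 else 1) := by
      split_ifs
      · exact W.alt_piece 9
      · exact alt_one _
    exact alt_add _ _ (ih fun i => s i.castSucc) h2

private theorem Fam_inL_L {g k : ℕ} (w : FreeGroup (Gen g)) (x : Gen g) :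
    fclass (inL (k := k) w) (genL x) = fclass w x := by
  have h : (fexp (genL (k := k) x)).comp inL = fexp x := by
    apply FreeGroup.ext_hom
    rintro ⟨i, t⟩
    rcases x with ⟨j, s⟩
    simp [fexp, inL, genL]
  exact congrArg Multiplicative.toAdd (DFunLike.congr_fun h w)

private theorem Fam_fexp {g : ℕ} (f : FreeGroup (Gen g) →* FreeGroup (Gen g))
    (hf : ∀ x : Gen g, fclass (f (FreeGroup.of x)) = fclass (FreeGroup.of x))
    (w : FreeGroup (Gen g)) : fclass (f w) = fclass w := by
  funext y
  have h : (fexp y).comp f = fexp y := by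
    apply FreeGroup.ext_hom
    intro x
    have := congrFun (hf x) y
    exact Multiplicative.toAdd.injective this
  exact congrArg Multiplicative.toAdd (DFunLike.congr_fun h w)

private theorem Fam_map {g k : ℕ} (i : FreeGroup (Gen g) →* FreeGroup (Gen k))
    (v w : FreeGroup (Gen g)) (hvw : fclass v = fclass w) :
    fclass (i v) = fclass (i w) := by
  have key : ∀ (φ : FreeGroup (Gen g) →* Multiplicative ℤ) (u : FreeGroup (Gen g)),
      (φ u).toAdd = ∑ y, (φ (FreeGroup.of y)).toAdd * fclass u y := by
    intro φ u
    induction u using FreeGroup.induction_on with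
    | C1 => simp [fclass_one]
    | of y => simp [fclass_of]
    | inv_of y ih =>
      rw [map_inv, toAdd_inv, fclass_inv, ih, ← Finset.sum_neg_distrib]
      exact Finset.sum_congr rfl fun z _ => by rw [Pi.neg_apply]; ring
    | mul v w hv hw =>
      rw [map_mul, toAdd_mul, fclass_mul, hv, hw, ← Finset.sum_add_distrib]
      exact Finset.sum_congr rfl fun z _ => by rw [Pi.add_apply]; ring
  funext x
  have h1 := key ((fexp x).comp i) v
  have h2 := key ((fexp x).comp i) w
  rw [hvw, ← h2] at h1
  exact h1

theorem fclass_add {Γ : Type} [Group Γ] {g k : ℕ} (P : Piece Γ g) (Q : Piece Γ k)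
    (hP : ∀ γ w, fclass (P.ρ γ w) = fclass w) (hQ : ∀ γ w, fclass (Q.ρ γ w) = fclass w) :
    ∀ γ w, fclass ((P.add Q).ρ γ w) = fclass w := by
  intro γ w
  refine Fam_fexp ((P.add Q).ρ γ).toMonoidHom (fun x => ?_) w
  change fclass ((P.add Q).ρ γ (FreeGroup.of x)) = _
  rcases x with ⟨i, t⟩
  induction i using Fin.addCases with
  | left i =>
    have h : (FreeGroup.of (Fin.castAdd k i, t) : FreeGroup (Gen (g + k))) =
        inL (FreeGroup.of (i, t)) := by
      rw [inL, FreeGroup.map.of]
      rfl
    rw [h, Piece.add_inL]
    exact Fam_map inL _ _ (hP γ _)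
  | right j =>
    have h : (FreeGroup.of (Fin.natAdd g j, t) : FreeGroup (Gen (g + k))) =
        inR (FreeGroup.of (j, t)) := by
      rw [inR, FreeGroup.map.of]
      rfl
    rw [h, Piece.add_inR]
    exact Fam_map inR _ _ (hQ γ _)

theorem fclass_Qn (n : ℕ) : ∀ γ w, fclass ((Qn n).ρ γ w) = fclass w := by
  induction n with
  | zero =>
    intro γ w
    rfl
  | succ n ih => exact fclass_add _ _ ih (W.fclass_piece 9)

/-- Use `expSum`. -/
theorem sgen_ne_one {g : ℕ} (x : Gen g) : (sgen x : SurfaceGroup g) ≠ 1 := by
  intro h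
  have h1 : expSum x (sgen x) = Multiplicative.ofAdd (1 : ℤ) := by
    rw [expSum, sgen, PresentedGroup.toGroup.of, if_pos rfl]
  rw [h, map_one] at h1
  have h2 := congrArg Multiplicative.toAdd h1
  rw [toAdd_one, toAdd_ofAdd] at h2
  exact absurd h2 (by norm_num)

theorem hP_ne_one : W.hP 9 ≠ 1 := by
  intro h
  have h1 := W.hP_of (b := 9) 0
  rw [h, MonoidHom.one_apply] at h1
  exact sgen_ne_one _ h1.symm

theorem hq_injective (n : ℕ) : Function.Injective (hq n) := by
  induction n with
  | zero =>
    intro s t _
    exact Subsingleton.elim _ _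
  | succ n ih =>
    intro s t hst
    have hL : hq n (fun i => s i.castSucc) = hq n (fun i => t i.castSucc) := by
      apply MonoidHom.ext
      intro w
      have := DFunLike.congr_fun hst (inL w)
      change sumHom _ _ (inL w) = sumHom _ _ (inL w) at this
      rw [sumHom_inL, sumHom_inL] at this
      exact this
    have hR : (if s (Fin.last n) then W.hP 9 else 1) = (if t (Fin.last n) then W.hP 9 else 1) := by
      apply MonoidHom.ext
      intro w
      have := DFunLike.congr_fun hst (inR w)
      change sumHom _ _ (inR w) = sumHom _ _ (inR w) at this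
      rw [sumHom_inR, sumHom_inR] at this
      exact this
    have h1 := ih hL
    have h2 : s (Fin.last n) = t (Fin.last n) := by
      cases hs : s (Fin.last n) <;> cases ht : t (Fin.last n)
      · rfl
      · rw [hs, ht] at hR
        simp only [Bool.false_eq_true, if_false, if_true] at hR
        exact absurd hR.symm hP_ne_one
      · rw [hs, ht] at hR
        simp only [Bool.false_eq_true, if_false, if_true] at hR
        exact absurd hR hP_ne_one
      · rfl
    funext i
    induction i using Fin.lastCases with
    | last => exact h2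
    | cast i => exact congrFun h1 i

theorem hq_false (n : ℕ) : hq n (fun _ => false) = 1 := by
  induction n with
  | zero => rfl
  | succ n ih =>
    apply sum_ext
    · intro w
      change sumHom _ _ (inL w) = _
      rw [sumHom_inL, ih]
      rfl
    · intro w
      change sumHom _ _ (inR w) = _
      rw [sumHom_inR]
      rfl

end H13SB
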