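import Pool.Agent.H13.SB.Family
import Pool.Agent.H13.SB.W.Curve

/-!
# The curves and the second fiberings of the sum, explicitly
-/

namespace H13SB

theorem gq_eq (n : ℕ) : gq n = 18 * n := by
  induction n with
  | zero => rfl
  | succ n ih => rw [gq, ih]; ring

/-- The index of the `j`-th handle of the `i`-th special block. -/
def ie : (n : ℕ) → Fin n → Fin 9 → Fin (gq n)
  | 0, i, _ => i.elim0
  | n + 1, i, j => Fin.lastCases (motive := fun _ => Fin (gq (n + 1)))
      (Fin.natAdd (gq n) (Fin.castAdd 9 j)) (fun i' => Fin.castAdd (9 + 9) (ie n i' j)) i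

theorem ie_last (n : ℕ) (j : Fin 9) :
    ie (n + 1) (Fin.last n) j = Fin.natAdd (gq n) (Fin.castAdd 9 j) := by
  simp [ie]

theorem ie_cast (n : ℕ) (i : Fin n) (j : Fin 9) :
    ie (n + 1) i.castSucc j = Fin.castAdd (9 + 9) (ie n i j) := by
  simp [ie]

theorem ie_val (n : ℕ) (i : Fin n) (j : Fin 9) : (ie n i j).val = 18 * i.val + j.val := by
  induction n with
  | zero => exact i.elim0
  | succ n ih =>
    induction i using Fin.lastCases with
    | last =>
      rw [ie_last]
      change gq n + j.val = _
      rw [gq_eq, Fin.val_last]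
    | cast i =>
      rw [ie_cast]
      exact ih i

theorem hq_succ_L (n : ℕ) (s : Fin (n + 1) → Bool) (w : FreeGroup (Gen (gq n))) :
    hq (n + 1) s (inL (k := 9 + 9) w) = hq n (fun i => s i.castSucc) w := sumHom_inL _ _ _

theorem hq_succ_R (n : ℕ) (s : Fin (n + 1) → Bool) (w : FreeGroup (Gen (9 + 9))) :
    hq (n + 1) s (inR (g := gq n) w) =
      (if s (Fin.last n) then W.hP 9 else (1 : FreeGroup (Gen (9 + 9)) →* _)) w :=
  sumHom_inR _ _ _

theorem of_L {g k : ℕ} (m : Fin g) (t : Bool) :
    (FreeGroup.of (Fin.castAdd k m, t) : FreeGroup (Gen (g + k))) = inL (FreeGroup.of (m, t)) := by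
  rw [inL, FreeGroup.map.of]; rfl

theorem of_R {g k : ℕ} (m : Fin k) (t : Bool) :
    (FreeGroup.of (Fin.natAdd g m, t) : FreeGroup (Gen (g + k))) = inR (FreeGroup.of (m, t)) := by
  rw [inR, FreeGroup.map.of]; rfl

/-- The value of a second fibering on the special handles. -/
theorem hq_ie (n : ℕ) (s : Fin n → Bool) (i : Fin n) (j : Fin 9) (t : Bool) :
    hq n s (FreeGroup.of (ie n i j, t)) = if s i then sgen (j.rev, !t) else 1 := by
  induction n with
  | zero => exact i.elim0
  | succ n ih =>
    induction i using Fin.lastCases with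
    | last =>
      rw [ie_last]
      refine (congrArg (hq (n + 1) s) (of_R (g := gq n) (Fin.castAdd 9 j) t)).trans ?_
      refine (hq_succ_R n s _).trans ?_
      split_ifs
      · cases t
        · exact W.hP_L0 j
        · exact W.hP_L1 j
      · rfl
    | cast i =>
      rw [ie_cast]
      refine (congrArg (hq (n + 1) s) (of_L (k := 9 + 9) (ie n i j) t)).trans ?_
      refine (hq_succ_L n s _).trans ?_
      exact ih (fun i => s i.castSucc) i

/-- The other handles are killed. -/
theorem hq_other (n : ℕ) (s : Fin n → Bool) (m : Fin (gq n)) (t : Bool)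
    (hm : ∀ i j, m ≠ ie n i j) : hq n s (FreeGroup.of (m, t)) = 1 := by
  induction n with
  | zero => exact m.elim0
  | succ n ih =>
    have hsplit : ∀ m' : Fin (gq n + (9 + 9)), (∀ i j, m' ≠ ie (n + 1) i j) →
        hq (n + 1) s (FreeGroup.of (m', t) : FreeGroup (Gen (gq n + (9 + 9)))) = 1 := by
      intro m' hm'
      induction m' using Fin.addCases with
      | left m =>
        refine (congrArg (hq (n + 1) s) (of_L (k := 9 + 9) m t)).trans ?_
        refine (hq_succ_L n s _).trans ?_
        refine ih (fun i => s i.castSucc) m (fun i j hij => hm' i.castSucc j ?_)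
        rw [ie_cast, hij]
      | right m =>
        refine (congrArg (hq (n + 1) s) (of_R (g := gq n) m t)).trans ?_
        refine (hq_succ_R n s _).trans ?_
        induction m using Fin.addCases with
        | left j => exact absurd (ie_last n j).symm (hm' (Fin.last n) j)
        | right j =>
          split_ifs
          · exact W.hP_R j t
          · rfl
    exact hsplit m hm

/-- The curve around the handles `e 0, ..., e 8`. -/
def curveF {k : ℕ} (e : Fin 9 → Fin k) : FreeGroup (Gen k) :=
  (List.ofFn fun j : Fin 9 => cm (FreeGroup.of (e j, false)) (FreeGroup.of (e j, true))).prod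

theorem curveF_L {g k : ℕ} (e : Fin 9 → Fin g) :
    inL (k := k) (curveF e) = curveF fun j => Fin.castAdd k (e j) := by
  rw [curveF, curveF, map_list_prod, List.map_ofFn]
  congr 2

theorem curveF_R {g k : ℕ} (e : Fin 9 → Fin k) :
    inR (g := g) (curveF e) = curveF fun j => Fin.natAdd g (e j) := by
  rw [curveF, curveF, map_list_prod, List.map_ofFn]
  congr 2

theorem conj_ie (n : ℕ) (i : Fin n) (γ : SurfaceGroup 9) : ∃ k : FreeGroup (Gen (gq n)),
    (Qn n).ρ γ (curveF (ie n i)) = k * curveF (ie n i) * k⁻¹ ∧ ∀ s, hq n s k = 1 := by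
  induction n with
  | zero => exact i.elim0
  | succ n ih =>
    induction i using Fin.lastCases with
    | last =>
      have h1 : curveF (ie (n + 1) (Fin.last n)) =
          inR (g := gq n) (inL (k := 9) (surfRel 9)) := by
        have h2 : (inL (k := 9) (surfRel 9) : FreeGroup (Gen (9 + 9))) =
            curveF fun j => Fin.castAdd 9 j := curveF_L (k := 9) (fun j : Fin 9 => j)
        rw [h2, curveF_R]
        congr 1
        funext j
        exact ie_last n j
      obtain ⟨k, hk, hk'⟩ := W.conj_curve (b := 9) γ
      refine ⟨inR (g := gq n) k, ?_, fun s => ?_⟩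
      · rw [h1]
        change ((Qn n).add (W.piece 9)).ρ γ (inR _) = _
        rw [Piece.add_inR, hk, map_mul, map_mul, map_inv]
        rfl
      · rw [hq_succ_R]
        split_ifs
        · exact hk'
        · rfl
    | cast i =>
      have h1 : curveF (ie (n + 1) i.castSucc) = inL (k := 9 + 9) (curveF (ie n i)) := by
        rw [curveF_L]
        congr 1
        funext j
        exact ie_cast n i j
      obtain ⟨k, hk, hk'⟩ := ih i
      refine ⟨inL (k := 9 + 9) k, ?_, fun s => ?_⟩
      · rw [h1]
        change ((Qn n).add (W.piece 9)).ρ γ (inL _) = _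
        rw [Piece.add_inL, hk, map_mul, map_mul, map_inv]
        rfl
      · rw [hq_succ_L]
        exact hk' _

end H13SB
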