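import Pool.Agent.H13.SB.Family
import Pool.Agent.H13.SB.Sig.Main
import Pool.Agent.H13.SB.Close

/-!
# The main theorem
-/

namespace H13SB

open SemidirectProduct

theorem sumHom_one_injective {Γ : Type} [Group Γ] {g k : ℕ} :
    Function.Injective fun f : FreeGroup (Gen k) →* Γ =>
      sumHom (1 : FreeGroup (Gen g) →* Γ) f := by
  intro f f' h
  apply MonoidHom.ext
  intro w
  have h1 := DFunLike.congr_fun h (inR w)
  simp only [sumHom_inR] at h1
  exact h1

/-- The automorphism of the closed bundle. -/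
theorem aut_of_alt {g b : ℕ} (P : Piece (SurfaceGroup b) g)
    (h : FreeGroup (Gen g) →* SurfaceGroup b) (hA : Alt P h) :
    ∃ A : MulAut (SurfaceGroup g ⋊[P.close] SurfaceGroup b), (∀ γ, A (inr γ) = inr γ) ∧
      ∀ w γ, (A (inl (mkS g w) * inr γ)).right = h w * γ := by
  obtain ⟨τ, h1, h2, h3⟩ := hA
  obtain ⟨T, hT⟩ := closeDescend P τ h1 h2
  obtain ⟨T', hT'⟩ := closeDescend P τ⁻¹
    (fun γ => by
      rw [MulAut.inv_apply, MulEquiv.symm_apply_eq]
      exact (h1 γ).symm)
    (by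
      rw [MulAut.inv_apply, MulEquiv.symm_apply_eq]
      exact h2.symm)
  have hTT' : T.comp T' = MonoidHom.id _ := by
    apply MonoidHom.ext
    intro y
    obtain ⟨x, rfl⟩ := closeProj_surjective P y
    rw [MonoidHom.comp_apply, hT', hT, MulAut.apply_inv_self]
    rfl
  have hT'T : T'.comp T = MonoidHom.id _ := by
    apply MonoidHom.ext
    intro y
    obtain ⟨x, rfl⟩ := closeProj_surjective P y
    rw [MonoidHom.comp_apply, hT, hT', MulAut.inv_apply_self]
    rfl
  have hTr : ∀ γ, T (inr γ) = inr γ := by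
    intro γ
    rw [← closeProj_inr P γ, hT, h1]
  refine ⟨MonoidHom.toMulEquiv T T' hT'T hTT', hTr, ?_⟩
  intro w γ
  change (T (inl (mkS g w) * inr γ)).right = _
  rw [map_mul, hTr, mul_right, right_inr, ← closeProj_inl, hT, ← rightHom_eq_right,
    closeProj_right, h3]

/-- The image of the fibre group under an automorphism is a fibre subgroup. -/
theorem mem_map_iff {N H : Type} [Group N] [Group H] {φ : H →* MulAut N}
    (B : MulAut (N ⋊[φ] H)) (x : N ⋊[φ] H) :
    x ∈ (MonoidHom.range (inl : N →* N ⋊[φ] H)).map B.toMonoidHom ↔ (B⁻¹ x).right = 1 := by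
  rw [Subgroup.mem_map]
  constructor
  · rintro ⟨y, ⟨k, rfl⟩, rfl⟩
    change (B⁻¹ (B (inl k))).right = 1
    rw [MulAut.inv_apply_self, right_inl]
  · intro h
    refine ⟨B⁻¹ x, ?_, MulAut.apply_inv_self _ _ x⟩
    rw [range_inl_eq_ker_rightHom, MonoidHom.mem_ker]
    exact h

theorem isFiber_map {g b : ℕ} (hg : 2 ≤ g) (hb : 2 ≤ b)
    {φ : SurfaceGroup b →* MulAut (SurfaceGroup g)}
    (B : MulAut (SurfaceGroup g ⋊[φ] SurfaceGroup b)) :
    IsFiberSubgroup ((MonoidHom.range
      (inl : SurfaceGroup g →* SurfaceGroup g ⋊[φ] SurfaceGroup b)).map B.toMonoidHom) := by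
  let f : SurfaceGroup g ⋊[φ] SurfaceGroup b →* SurfaceGroup b :=
    rightHom.comp (B⁻¹).toMonoidHom
  have hf : (MonoidHom.range
      (inl : SurfaceGroup g →* SurfaceGroup g ⋊[φ] SurfaceGroup b)).map B.toMonoidHom = f.ker := by
    ext x
    rw [mem_map_iff, MonoidHom.mem_ker]
    rfl
  have hsurj : Function.Surjective f := fun γ => ⟨B (inr γ), by
    change rightHom (B⁻¹ (B (inr γ))) = γ
    rw [MulAut.inv_apply_self, rightHom_inr]⟩
  rw [hf]
  refine ⟨g, b, hg, hb, ?_, inferInstance, ⟨QuotientGroup.quotientKerEquivOfSurjective f hsurj⟩⟩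
  let j : SurfaceGroup g →* SurfaceGroup g ⋊[φ] SurfaceGroup b := B.toMonoidHom.comp inl
  have hj : Function.Injective j := fun x y hxy => inl_injective (B.injective hxy)
  have hr : j.range = f.ker := by
    rw [← hf]
    exact (MonoidHom.map_range B.toMonoidHom inl).symm
  exact ⟨((MonoidHom.ofInjective hj).trans (MulEquiv.subgroupCongr hr)).symm⟩

theorem main (n : ℕ) :
    ∃ g : ℕ, 2 ≤ g ∧ ∃ φ : SurfaceGroup 9 →* MulAut (SurfaceGroup g),
      OrientationPreserving φ ∧ signature φ ≠ 0 ∧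
      ∃ K : (Fin n → Bool) → Subgroup (SurfaceGroup g ⋊[φ] SurfaceGroup 9),
        Function.Injective K ∧ K (fun _ => false) = MonoidHom.range inl ∧
        ∀ s, IsFiberSubgroup (K s) ∧
          ∃ A : MulAut (SurfaceGroup g ⋊[φ] SurfaceGroup 9),
            (∀ γ, A (inr γ) = inr γ) ∧ K s = (MonoidHom.range inl).map A.toMonoidHom := by
  refine ⟨3 + gq n, by omega, (X.piece.add (Qn n)).close,
    orientationPreserving_add _ (fclass_Qn n), signature_ne _ (fclass_Qn n), ?_⟩
  have hA : ∀ s : Fin n → Bool, ∃ A : MulAut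
      (SurfaceGroup (3 + gq n) ⋊[(X.piece.add (Qn n)).close] SurfaceGroup 9),
      (∀ γ, A (inr γ) = inr γ) ∧ ∀ w γ, (A (inl (mkS (3 + gq n) w) * inr γ)).right =
        sumHom (1 : FreeGroup (Gen 3) →* SurfaceGroup 9) (hq n s) w * γ := fun s =>
    aut_of_alt (X.piece.add (Qn n)) _
      (alt_add X.piece (Qn n) (alt_one X.piece) (alt_hq n s))
  choose A hA1 hA2 using hA
  have hmem : ∀ s w γ, inl (mkS (3 + gq n) w) * inr γ ∈
      (MonoidHom.range (inl : SurfaceGroup (3 + gq n) →* SurfaceGroup (3 + gq n)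
        ⋊[(X.piece.add (Qn n)).close] SurfaceGroup 9)).map ((A s)⁻¹).toMonoidHom ↔
      sumHom (1 : FreeGroup (Gen 3) →* SurfaceGroup 9) (hq n s) w * γ = 1 := by
    intro s w γ
    rw [mem_map_iff, inv_inv, hA2]
  refine ⟨fun s => (MonoidHom.range inl).map ((A s)⁻¹).toMonoidHom, ?_, ?_, fun s =>
    ⟨isFiber_map (by omega) (by norm_num) _, (A s)⁻¹, fun γ => ?_, rfl⟩⟩
  · intro s s' h
    apply hq_injective n
    apply sumHom_one_injective (g := 3)
    apply MonoidHom.ext
    intro w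
    have h1 := (hmem s w (sumHom (1 : FreeGroup (Gen 3) →* SurfaceGroup 9) (hq n s) w)⁻¹).2
      (mul_inv_cancel _)
    have h2 : inl (mkS (3 + gq n) w) *
        inr ((sumHom (1 : FreeGroup (Gen 3) →* SurfaceGroup 9) (hq n s) w)⁻¹) ∈
      (MonoidHom.range (inl : SurfaceGroup (3 + gq n) →* SurfaceGroup (3 + gq n)
        ⋊[(X.piece.add (Qn n)).close] SurfaceGroup 9)).map ((A s')⁻¹).toMonoidHom := by
      have h' : (MonoidHom.range (inl : SurfaceGroup (3 + gq n) →* SurfaceGroup (3 + gq n)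
        ⋊[(X.piece.add (Qn n)).close] SurfaceGroup 9)).map ((A s)⁻¹).toMonoidHom =
        (MonoidHom.range (inl : SurfaceGroup (3 + gq n) →* SurfaceGroup (3 + gq n)
        ⋊[(X.piece.add (Qn n)).close] SurfaceGroup 9)).map ((A s')⁻¹).toMonoidHom := h
      rw [← h']
      exact h1
    exact (mul_inv_eq_one.1 ((hmem s' w _).1 h2)).symm
  · have h0 : sumHom (1 : FreeGroup (Gen 3) →* SurfaceGroup 9) (hq n fun _ => false) = 1 := by
      rw [hq_false]
      exact sum_ext (fun w => by simp) (fun w => by simp)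
    ext x
    obtain ⟨w, hw⟩ := mkS_surjective x.left
    have h1 := hmem (fun _ => false) w x.right
    rw [hw, inl_left_mul_inr_right, h0, MonoidHom.one_apply, one_mul] at h1
    rw [h1, range_inl_eq_ker_rightHom, MonoidHom.mem_ker, rightHom_eq_right]
  · rw [MulAut.inv_apply, MulEquiv.symm_apply_eq]
    exact (hA1 s γ).symm

end H13SB
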