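import Pool.Agent.H13.SB.Family2
import Pool.Agent.H13.SB.Final
import Pool.Agent.H13.SB.Sig.Main2

/-!
# The main theorem, with explicit fiberings
-/

namespace H13SB

open SemidirectProduct

/-- The curve around nine handles. -/
def curve {g : ℕ} (e : Fin 9 → Fin g) : SurfaceGroup g :=
  (List.ofFn fun j : Fin 9 => cm (sgen (e j, false)) (sgen (e j, true))).prod

theorem curve_mk {g : ℕ} (e : Fin 9 → Fin g) : mkS g (curveF e) = curve e := by
  rw [curveF, curve, map_list_prod, List.map_ofFn]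
  rfl

theorem isFiber_ker {g b : ℕ} (hg : 2 ≤ g) (hb : 2 ≤ b)
    {φ : SurfaceGroup b →* MulAut (SurfaceGroup g)}
    (A : MulAut (SurfaceGroup g ⋊[φ] SurfaceGroup b)) :
    IsFiberSubgroup ((rightHom : SurfaceGroup g ⋊[φ] SurfaceGroup b →* _).comp
      A.toMonoidHom).ker := by
  have h := isFiber_map hg hb A⁻¹
  have h2 : ((MonoidHom.range
      (inl : SurfaceGroup g →* SurfaceGroup g ⋊[φ] SurfaceGroup b)).map (A⁻¹).toMonoidHom) =
      ((rightHom : SurfaceGroup g ⋊[φ] SurfaceGroup b →* _).comp A.toMonoidHom).ker := by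
    ext x
    rw [mem_map_iff, MonoidHom.mem_ker, inv_inv]
    rfl
  rw [← h2]
  exact h

theorem main2 (n : ℕ) :
    ∃ (g : ℕ) (e : Fin n → Fin 9 → Fin g) (φ : SurfaceGroup 9 →* MulAut (SurfaceGroup g)),
      g = 3 + 18 * n ∧ (∀ i j, (e i j).val = 3 + 18 * i.val + j.val) ∧
      OrientationPreserving φ ∧ posIndex φ = 50 + 324 * n ∧ negIndex φ = 46 + 324 * n ∧
      ∃ H : (Fin n → Bool) → (SurfaceGroup g ⋊[φ] SurfaceGroup 9 →* SurfaceGroup 9),
        (∀ s, (∀ γ, H s (inr γ) = γ) ∧
          (∀ i j t, H s (inl (sgen (e i j, t))) = if s i then sgen (j.rev, !t) else 1) ∧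
          (∀ m t, (∀ i j, m ≠ e i j) → H s (inl (sgen (m, t))) = 1) ∧
          IsFiberSubgroup (H s).ker) ∧
        (Function.Injective fun s => (H s).ker) ∧
        ∀ i γ, ∃ k, φ γ (curve (e i)) = k * curve (e i) * k⁻¹ ∧ ∀ s, H s (inl k) = 1 := by
  have hA : ∀ s : Fin n → Bool, ∃ A : MulAut
      (SurfaceGroup (3 + gq n) ⋊[(X.piece.add (Qn n)).close] SurfaceGroup 9),
      (∀ γ, A (inr γ) = inr γ) ∧ ∀ w γ, (A (inl (mkS (3 + gq n) w) * inr γ)).right =
        sumHom (1 : FreeGroup (Gen 3) →* SurfaceGroup 9) (hq n s) w * γ := fun s =>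
    aut_of_alt (X.piece.add (Qn n)) _
      (alt_add X.piece (Qn n) (alt_one X.piece) (alt_hq n s))
  choose A hA1 hA2 using hA
  have hr : ∀ s γ, ((rightHom : SurfaceGroup (3 + gq n) ⋊[(X.piece.add (Qn n)).close]
      SurfaceGroup 9 →* _).comp (A s).toMonoidHom) (inr γ) = γ := by
    intro s γ
    change rightHom (A s (inr γ)) = γ
    rw [hA1, rightHom_inr]
  have hl : ∀ s w, ((rightHom : SurfaceGroup (3 + gq n) ⋊[(X.piece.add (Qn n)).close]
      SurfaceGroup 9 →* _).comp (A s).toMonoidHom) (inl (mkS (3 + gq n) w)) =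
      sumHom (1 : FreeGroup (Gen 3) →* SurfaceGroup 9) (hq n s) w := by
    intro s w
    have h := hA2 s w 1
    rw [map_one, mul_one, mul_one] at h
    exact h
  refine ⟨3 + gq n, fun i j => Fin.natAdd 3 (ie n i j), (X.piece.add (Qn n)).close,
    by rw [gq_eq], ?_, orientationPreserving_add _ (fclass_Qn n), ?_, ?_,
    fun s => (rightHom : SurfaceGroup (3 + gq n) ⋊[(X.piece.add (Qn n)).close]
      SurfaceGroup 9 →* _).comp (A s).toMonoidHom, fun s => ⟨hr s, ?_, ?_,
      isFiber_ker (by omega) (by norm_num) (A s)⟩, ?_, ?_⟩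
  · intro i j
    rw [Fin.val_natAdd, ie_val, add_assoc]
  · have h1 := posIndex_ge _ (fclass_Qn n)
    have h2 := posIndex_le _ (fclass_Qn n)
    have h3 := gq_eq n
    omega
  · have h1 := negIndex_ge _ (fclass_Qn n)
    have h2 := negIndex_le _ (fclass_Qn n)
    have h3 := gq_eq n
    omega
  · intro i j t
    have h1 : (sgen (Fin.natAdd 3 (ie n i j), t) : SurfaceGroup (3 + gq n)) =
        mkS (3 + gq n) (inR (FreeGroup.of (ie n i j, t))) := by
      rw [← of_R]; rfl
    rw [h1, hl, sumHom_inR, hq_ie]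
  · intro m t hm
    induction m using Fin.addCases with
    | left m =>
      have h1 : (sgen (Fin.castAdd (gq n) m, t) : SurfaceGroup (3 + gq n)) =
          mkS (3 + gq n) (inL (FreeGroup.of (m, t))) := by
        rw [← of_L]; rfl
      rw [h1, hl, sumHom_inL, MonoidHom.one_apply]
    | right m =>
      have h1 : (sgen (Fin.natAdd 3 m, t) : SurfaceGroup (3 + gq n)) =
          mkS (3 + gq n) (inR (FreeGroup.of (m, t))) := by
        rw [← of_R]; rfl
      rw [h1, hl, sumHom_inR]
      exact hq_other n s m t (fun i j h => hm i j (by rw [h]))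
  · intro s s' h
    apply hq_injective n
    apply sumHom_one_injective (g := 3)
    apply MonoidHom.ext
    intro w
    have h1 : inl (mkS (3 + gq n) w) *
        inr ((sumHom (1 : FreeGroup (Gen 3) →* SurfaceGroup 9) (hq n s) w)⁻¹) ∈
        ((rightHom : SurfaceGroup (3 + gq n) ⋊[(X.piece.add (Qn n)).close]
          SurfaceGroup 9 →* _).comp (A s).toMonoidHom).ker := by
      rw [MonoidHom.mem_ker, map_mul, hr, hl, mul_inv_cancel]
    have h2 : inl (mkS (3 + gq n) w) *
        inr ((sumHom (1 : FreeGroup (Gen 3) →* SurfaceGroup 9) (hq n s) w)⁻¹) ∈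
        ((rightHom : SurfaceGroup (3 + gq n) ⋊[(X.piece.add (Qn n)).close]
          SurfaceGroup 9 →* _).comp (A s').toMonoidHom).ker := by
      have h' : ((rightHom : SurfaceGroup (3 + gq n) ⋊[(X.piece.add (Qn n)).close]
          SurfaceGroup 9 →* _).comp (A s).toMonoidHom).ker =
          ((rightHom : SurfaceGroup (3 + gq n) ⋊[(X.piece.add (Qn n)).close]
          SurfaceGroup 9 →* _).comp (A s').toMonoidHom).ker := h
      rw [← h']
      exact h1
    rw [MonoidHom.mem_ker, map_mul, hr, hl] at h2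
    exact (mul_inv_eq_one.1 h2).symm
  · intro i γ
    obtain ⟨k, hk, hk'⟩ := conj_ie n i γ
    refine ⟨mkS (3 + gq n) (inR k), ?_, fun s => ?_⟩
    · rw [← curve_mk, Piece.close_mk, ← curveF_R, Piece.add_inR, hk, map_mul, map_mul, map_inv,
        map_mul, map_mul, map_inv]
    · rw [hl, sumHom_inR, hk']

end H13SB
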