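import Pool.Agent.H13.SB.Defs

/-!
# Pieces: surface bundles with one boundary component and square-zero boundary section

A piece of genus `g` over the group `Γ` is an action of `Γ` on the free group on `Gen g`
(the fundamental group of the surface of genus `g` with one boundary component) fixing the
boundary word `surfRel g`.
-/

namespace H13SB

/-- First handles. -/
def genL {g k : ℕ} (x : Gen g) : Gen (g + k) := (Fin.castAdd k x.1, x.2)
/-- Last handles. -/
def genR {g k : ℕ} (x : Gen k) : Gen (g + k) := (Fin.natAdd g x.1, x.2)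

def inL {g k : ℕ} : FreeGroup (Gen g) →* FreeGroup (Gen (g + k)) := FreeGroup.map genL
def inR {g k : ℕ} : FreeGroup (Gen k) →* FreeGroup (Gen (g + k)) := FreeGroup.map genR

/-- A homomorphism on the free group of the sum from its two restrictions. -/
def sumHom {H : Type*} [Group H] {g k : ℕ} (f : FreeGroup (Gen g) →* H)
    (f' : FreeGroup (Gen k) →* H) : FreeGroup (Gen (g + k)) →* H :=
  FreeGroup.lift fun x =>
    Fin.addCases (motive := fun _ => H) (fun i => f (FreeGroup.of (i, x.2)))
      (fun j => f' (FreeGroup.of (j, x.2))) x.1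

@[simp] theorem sumHom_inL {H : Type*} [Group H] {g k : ℕ} (f : FreeGroup (Gen g) →* H)
    (f' : FreeGroup (Gen k) →* H) (w : FreeGroup (Gen g)) : sumHom f f' (inL w) = f w := by
  have h : (sumHom f f').comp inL = f := by
    apply FreeGroup.ext_hom
    rintro ⟨i, t⟩
    simp [sumHom, inL, genL]
  exact DFunLike.congr_fun h w

@[simp] theorem sumHom_inR {H : Type*} [Group H] {g k : ℕ} (f : FreeGroup (Gen g) →* H)
    (f' : FreeGroup (Gen k) →* H) (w : FreeGroup (Gen k)) : sumHom f f' (inR w) = f' w := by
  have h : (sumHom f f').comp inR = f' := by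
    apply FreeGroup.ext_hom
    rintro ⟨i, t⟩
    simp [sumHom, inR, genR]
  exact DFunLike.congr_fun h w

theorem sum_ext {H : Type*} [Group H] {g k : ℕ} {f f' : FreeGroup (Gen (g + k)) →* H}
    (h1 : ∀ w, f (inL w) = f' (inL w)) (h2 : ∀ w, f (inR w) = f' (inR w)) : f = f' := by
  apply FreeGroup.ext_hom
  rintro ⟨i, t⟩
  induction i using Fin.addCases with
  | left i => simpa [inL, genL] using h1 (FreeGroup.of (i, t))
  | right j => simpa [inR, genR] using h2 (FreeGroup.of (j, t))

theorem surfRel_add (g k : ℕ) :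
    surfRel (g + k) = inL (surfRel g) * inR (surfRel k) := by
  rw [surfRel, surfRel, surfRel, map_list_prod, map_list_prod, ← List.prod_append]
  congr 1
  rw [List.map_ofFn, List.map_ofFn, ← List.ofFn_fin_append]
  congr 1
  funext i
  induction i using Fin.addCases with
  | left i => simp [inL, genL, map_cm]
  | right j => simp [inR, genR, map_cm]

/-- The automorphism of the free group of the sum from two automorphisms. -/
def sumAut {g k : ℕ} (f : MulAut (FreeGroup (Gen g))) (f' : MulAut (FreeGroup (Gen k))) :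
    MulAut (FreeGroup (Gen (g + k))) :=
  MonoidHom.toMulEquiv (sumHom (inL.comp f.toMonoidHom) (inR.comp f'.toMonoidHom))
    (sumHom (inL.comp (f⁻¹).toMonoidHom) (inR.comp (f'⁻¹).toMonoidHom))
    (sum_ext (fun w => by simp [MulAut.inv_def]) (fun w => by simp [MulAut.inv_def]))
    (sum_ext (fun w => by simp [MulAut.inv_def]) (fun w => by simp [MulAut.inv_def]))

@[simp] theorem sumAut_inL {g k : ℕ} (f : MulAut (FreeGroup (Gen g)))
    (f' : MulAut (FreeGroup (Gen k))) (w : FreeGroup (Gen g)) :
    sumAut f f' (inL w) = inL (f w) := by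
  simp [sumAut]

@[simp] theorem sumAut_inR {g k : ℕ} (f : MulAut (FreeGroup (Gen g)))
    (f' : MulAut (FreeGroup (Gen k))) (w : FreeGroup (Gen k)) :
    sumAut f f' (inR w) = inR (f' w) := by
  simp [sumAut]

/-- A piece of genus `g` over `Γ`. -/
structure Piece (Γ : Type) [Group Γ] (g : ℕ) where
  ρ : Γ →* MulAut (FreeGroup (Gen g))
  bdry : ∀ γ, ρ γ (surfRel g) = surfRel g

variable {Γ : Type} [Group Γ] {g k : ℕ}

/-- The boundary connected sum of two pieces. -/
def Piece.add (P : Piece Γ g) (Q : Piece Γ k) : Piece Γ (g + k) where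
  ρ :=
    { toFun := fun γ => sumAut (P.ρ γ) (Q.ρ γ)
      map_one' := by
        apply MulEquiv.toMonoidHom_injective
        exact sum_ext (fun w => by simp) (fun w => by simp)
      map_mul' := fun x y => by
        apply MulEquiv.toMonoidHom_injective
        exact sum_ext (fun w => by simp) (fun w => by simp) }
  bdry := fun γ => by
    change sumAut (P.ρ γ) (Q.ρ γ) (surfRel (g + k)) = _
    rw [surfRel_add, map_mul, sumAut_inL, sumAut_inR, P.bdry, Q.bdry]

@[simp] theorem Piece.add_inL (P : Piece Γ g) (Q : Piece Γ k) (γ : Γ) (w : FreeGroup (Gen g)) :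
    (P.add Q).ρ γ (inL w) = inL (P.ρ γ w) := by
  simp [Piece.add]

@[simp] theorem Piece.add_inR (P : Piece Γ g) (Q : Piece Γ k) (γ : Γ) (w : FreeGroup (Gen k)) :
    (P.add Q).ρ γ (inR w) = inR (Q.ρ γ w) := by
  simp [Piece.add]

open SemidirectProduct in
/-- Besides the given fibering `(k, γ) ↦ γ`, the piece `P` has the fibering
`(k, γ) ↦ h k * γ`: there is an automorphism `τ` of `F ⋊ Γ` which is the identity on `Γ` and on
the boundary and carries the second fibering to the first. -/
def Alt (P : Piece Γ g) (h : FreeGroup (Gen g) →* Γ) : Prop :=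
  ∃ τ : MulAut (FreeGroup (Gen g) ⋊[P.ρ] Γ), (∀ γ, τ (inr γ) = inr γ) ∧
    τ (inl (surfRel g)) = inl (surfRel g) ∧ ∀ w, (τ (inl w)).right = h w

theorem alt_one (P : Piece Γ g) : Alt P 1 := by
  refine ⟨1, fun γ => rfl, rfl, fun w => ?_⟩
  simp

end H13SB
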